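import Pool.Agent.TH966.AK.Sys

/-!
# Systems of moves with geometric weights: the size and the size plus one move have nearly the same law
-/

set_option autoImplicit false

namespace Pool.Agent.R131.LS

open Finset TH966.AK
open scoped Classical

variable {α σ : Type} (Y : Sys α σ) (x : ℝ) (N : ℕ)

/-- weighted sums -/
noncomputable def Ex (φ : ℕ → α → ℝ) : ℝ := ∑ m ∈ range N, x ^ m * ∑ w ∈ Y.K m, φ m w

/-- hypotheses on a system of moves -/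
structure Good (Y : Sys α σ) (x : ℝ) (N : ℕ) : Prop where
  x0 : 0 < x
  x1 : x ≤ 1
  n0 : Y.n0 = 0
  big : ∀ m, N ≤ m → Y.K m = ∅
  small : ∀ m, m < Y.s → ∀ w ∈ Y.K m, Y.B w = ∅
  B_le : ∀ m, ∀ w ∈ Y.K m, (Y.B w).card ≤ Y.C * (m + 1)

variable {Y x N}

theorem Ex_add (φ ψ : ℕ → α → ℝ) : Ex Y x N (fun m w => φ m w + ψ m w) =
    Ex Y x N φ + Ex Y x N ψ := by
  unfold Ex
  rw [← sum_add_distrib]
  refine sum_congr rfl fun m _ => ?_
  rw [sum_add_distrib, mul_add]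

theorem Ex_sub (φ ψ : ℕ → α → ℝ) : Ex Y x N (fun m w => φ m w - ψ m w) =
    Ex Y x N φ - Ex Y x N ψ := by
  unfold Ex
  rw [← sum_sub_distrib]
  refine sum_congr rfl fun m _ => ?_
  rw [sum_sub_distrib, mul_sub]

theorem Ex_mul (c : ℝ) (φ : ℕ → α → ℝ) : Ex Y x N (fun m w => c * φ m w) =
    c * Ex Y x N φ := by
  unfold Ex
  rw [mul_sum]
  refine sum_congr rfl fun m _ => ?_
  rw [← mul_sum]
  ring

theorem Ex_mono (hx : 0 < x) {φ ψ : ℕ → α → ℝ} (h : ∀ m, ∀ w ∈ Y.K m, φ m w ≤ ψ m w) :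
    Ex Y x N φ ≤ Ex Y x N ψ := by
  unfold Ex
  refine sum_le_sum fun m _ => ?_
  exact mul_le_mul_of_nonneg_left (sum_le_sum fun w hw => h m w hw) (by positivity)

theorem Ex_nonneg (hx : 0 < x) {φ : ℕ → α → ℝ} (h : ∀ m, ∀ w ∈ Y.K m, 0 ≤ φ m w) :
    0 ≤ Ex Y x N φ := by
  unfold Ex
  exact sum_nonneg fun m _ => mul_nonneg (by positivity) (sum_nonneg fun w hw => h m w hw)

theorem Ex_abs (hx : 0 < x) (φ : ℕ → α → ℝ) :
    |Ex Y x N φ| ≤ Ex Y x N (fun m w => |φ m w|) := by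
  unfold Ex
  refine (abs_sum_le_sum_abs _ _).trans (sum_le_sum fun m _ => ?_)
  rw [abs_mul, abs_of_nonneg (by positivity)]
  exact mul_le_mul_of_nonneg_left (abs_sum_le_sum_abs _ _) (by positivity)

/-- double counting -/
theorem exch (H : Good Y x N) (G : ℕ → α → α → ℝ) :
    Ex Y x N (fun m w => ∑ q ∈ Y.B w, G m (Y.rem w q) w) =
    x ^ Y.s * Ex Y x N (fun m w => ∑ q ∈ Y.S w, G (m + Y.s) w (Y.ins w q)) := by
  have h1 : Ex Y x N (fun m w => ∑ q ∈ Y.B w, G m (Y.rem w q) w) =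
      ∑ m ∈ range (Y.s + N), x ^ m * ∑ w ∈ Y.K m, ∑ q ∈ Y.B w, G m (Y.rem w q) w := by
    unfold Ex
    refine sum_subset (fun m hm => ?_) fun m _ hm => ?_
    · rw [mem_range] at hm ⊢
      omega
    · rw [mem_range, not_lt] at hm
      rw [H.big m hm]
      simp
  rw [h1, Finset.sum_range_add]
  have h2 : ∑ m ∈ range Y.s, x ^ m * ∑ w ∈ Y.K m, ∑ q ∈ Y.B w, G m (Y.rem w q) w = 0 := by
    refine sum_eq_zero fun m hm => ?_
    rw [mem_range] at hm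
    rw [sum_eq_zero fun w hw => ?_, mul_zero]
    rw [H.small m hm w hw]
    simp
  rw [h2, zero_add]
  unfold Ex
  rw [mul_sum]
  refine sum_congr rfl fun m _ => ?_
  rw [Nat.add_comm Y.s m, ← Y.sum_eq m (by rw [H.n0]; exact Nat.zero_le _)
    (fun a b => G (m + Y.s) a b), pow_add]
  ring

/-- the difference of the weighted numbers of moves -/
noncomputable def dd (Y : Sys α σ) (x : ℝ) (w : α) : ℝ :=
  x ^ Y.s * ((Y.S w).card : ℝ) - ((Y.B w).card : ℝ)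

theorem dd_ins (H : Good Y x N) {m : ℕ} {w : α} {q : σ} (hw : w ∈ Y.K m) (hq : q ∈ Y.S w) :
    |dd Y x w - dd Y x (Y.ins w q)| ≤ 2 * Y.C := by
  have hx0 := H.x0
  have h1 : ((Y.S w).card : ℝ) ≤ (Y.S (Y.ins w q)).card + Y.C := by
    exact_mod_cast Y.chS1 m w q hw hq
  have h2 : ((Y.S (Y.ins w q)).card : ℝ) ≤ (Y.S w).card + Y.C := by
    exact_mod_cast Y.chS2 m w q hw hq
  have h3 : ((Y.B w).card : ℝ) ≤ (Y.B (Y.ins w q)).card + Y.C := by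
    exact_mod_cast Y.chB1 m w q hw hq
  have h4 : ((Y.B (Y.ins w q)).card : ℝ) ≤ (Y.B w).card + Y.C := by
    exact_mod_cast Y.chB2 m w q hw hq
  have hp0 : 0 ≤ x ^ Y.s := by positivity
  have hp1 : x ^ Y.s ≤ 1 := pow_le_one₀ hx0.le H.x1
  have hC : (0 : ℝ) ≤ Y.C := Nat.cast_nonneg _
  have h5 : x ^ Y.s * (((Y.S w).card : ℝ) - (Y.S (Y.ins w q)).card) ≤ Y.C := by
    have : x ^ Y.s * (((Y.S w).card : ℝ) - (Y.S (Y.ins w q)).card) ≤ x ^ Y.s * Y.C :=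
      mul_le_mul_of_nonneg_left (by linarith) hp0
    nlinarith
  have h6 : -(Y.C : ℝ) ≤ x ^ Y.s * (((Y.S w).card : ℝ) - (Y.S (Y.ins w q)).card) := by
    have : x ^ Y.s * (-(Y.C : ℝ)) ≤ x ^ Y.s * (((Y.S w).card : ℝ) - (Y.S (Y.ins w q)).card) :=
      mul_le_mul_of_nonneg_left (by linarith) hp0
    nlinarith
  unfold dd
  rw [abs_le]
  constructor <;> linarith

theorem dd_le (H : Good Y x N) {m : ℕ} {w : α} (hw : w ∈ Y.K m) :
    |dd Y x w| ≤ Y.C * (m + 1) := by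
  have hx0 := H.x0
  have h1 : ((Y.S w).card : ℝ) ≤ Y.C * (m + 1) := by
    exact_mod_cast Y.S_le m w hw
  have h2 : ((Y.B w).card : ℝ) ≤ Y.C * (m + 1) := by
    exact_mod_cast H.B_le m w hw
  have hp0 : 0 ≤ x ^ Y.s := by positivity
  have hp1 : x ^ Y.s ≤ 1 := pow_le_one₀ hx0.le H.x1
  have h3 : (0 : ℝ) ≤ (Y.S w).card := Nat.cast_nonneg _
  have h4 : (0 : ℝ) ≤ (Y.B w).card := Nat.cast_nonneg _
  have h5 : x ^ Y.s * ((Y.S w).card : ℝ) ≤ (Y.S w).card := mul_le_of_le_one_left h3 hp1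
  have h6 : 0 ≤ x ^ Y.s * ((Y.S w).card : ℝ) := by positivity
  unfold dd
  rw [abs_le]
  constructor <;> linarith

/-- the second moment -/
theorem second (H : Good Y x N) :
    Ex Y x N (fun m w => dd Y x w ^ 2 * (1 / ((m : ℝ) + 1) ^ 2)) ≤
      2 * Y.C ^ 2 * (1 + Y.s) * Ex Y x N (fun m _ => 1 / ((m : ℝ) + 1)) := by
  have hx0 := H.x0
  have hC : (0 : ℝ) ≤ Y.C := Nat.cast_nonneg _
  have hs : (0 : ℝ) ≤ Y.s := Nat.cast_nonneg _
  have hp0 : 0 ≤ x ^ Y.s := by positivity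
  have hp1 : x ^ Y.s ≤ 1 := pow_le_one₀ hx0.le H.x1
  have e1 : Ex Y x N (fun m w => dd Y x w ^ 2 * (1 / ((m : ℝ) + 1) ^ 2)) =
      x ^ Y.s * Ex Y x N (fun m w => ∑ q ∈ Y.S w, (1 / ((m : ℝ) + 1) ^ 2 * dd Y x w -
        1 / (((m + Y.s : ℕ) : ℝ) + 1) ^ 2 * dd Y x (Y.ins w q))) := by
    have h1 := exch H (fun m _ w => 1 / ((m : ℝ) + 1) ^ 2 * dd Y x w)
    have h2 : Ex Y x N (fun m w => dd Y x w ^ 2 * (1 / ((m : ℝ) + 1) ^ 2)) =
        x ^ Y.s * Ex Y x N (fun m w => ∑ q ∈ Y.S w, 1 / ((m : ℝ) + 1) ^ 2 * dd Y x w) -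
        Ex Y x N (fun m w => ∑ q ∈ Y.B w, 1 / ((m : ℝ) + 1) ^ 2 * dd Y x w) := by
      rw [← Ex_mul, ← Ex_sub]
      congr 1
      funext m w
      rw [sum_const, sum_const, nsmul_eq_mul, nsmul_eq_mul]
      unfold dd
      ring
    rw [h2, h1, ← mul_sub, ← Ex_sub]
    congr 2
    funext m w
    rw [← sum_sub_distrib]
  rw [e1, mul_assoc, mul_assoc]
  have h3 : Ex Y x N (fun m w => ∑ q ∈ Y.S w, (1 / ((m : ℝ) + 1) ^ 2 * dd Y x w -
        1 / (((m + Y.s : ℕ) : ℝ) + 1) ^ 2 * dd Y x (Y.ins w q))) ≤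
      2 * (Y.C ^ 2 * ((1 + Y.s) * Ex Y x N (fun m _ => 1 / ((m : ℝ) + 1)))) := by
    rw [← Ex_mul, ← Ex_mul, ← Ex_mul]
    refine Ex_mono hx0 fun m w hw => ?_
    have hm : (0 : ℝ) ≤ m := Nat.cast_nonneg _
    have h4 : ∀ q ∈ Y.S w, (1 / ((m : ℝ) + 1) ^ 2 * dd Y x w -
        1 / (((m + Y.s : ℕ) : ℝ) + 1) ^ 2 * dd Y x (Y.ins w q)) ≤
        2 * Y.C * (1 + Y.s) / ((m : ℝ) + 1) ^ 2 := by
      intro q hq
      have h5 := (abs_le.1 (dd_ins H hw hq)).2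
      have h6 := dd_le H (Y.ins_K m w q hw hq)
      have h6' := (abs_le.1 h6).2
      push_cast at h6' ⊢
      set a := (m : ℝ) + 1 with ha
      have ha0 : 0 < a := by rw [ha]; positivity
      have e2 : (m : ℝ) + Y.s + 1 = a + Y.s := by rw [ha]; ring
      rw [e2] at h6' ⊢
      have hb0 : 0 < a + Y.s := by positivity
      have h7 : 1 / a ^ 2 * dd Y x w - 1 / (a + Y.s) ^ 2 * dd Y x (Y.ins w q) =
          1 / a ^ 2 * (dd Y x w - dd Y x (Y.ins w q)) +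
          (1 / a ^ 2 - 1 / (a + Y.s) ^ 2) * dd Y x (Y.ins w q) := by ring
      rw [h7]
      have h8 : 0 ≤ 1 / a ^ 2 - 1 / (a + Y.s) ^ 2 := by
        rw [sub_nonneg]
        exact one_div_le_one_div_of_le (by positivity) (by nlinarith)
      have h9 : (1 / a ^ 2 - 1 / (a + Y.s) ^ 2) * dd Y x (Y.ins w q) ≤
          (1 / a ^ 2 - 1 / (a + Y.s) ^ 2) * (Y.C * (a + Y.s)) :=
        mul_le_mul_of_nonneg_left h6' h8
      have h10 : (1 / a ^ 2 - 1 / (a + Y.s) ^ 2) * (Y.C * (a + Y.s)) ≤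
          2 * Y.C * Y.s / a ^ 2 := by
        have e3 : (1 / a ^ 2 - 1 / (a + Y.s) ^ 2) * (Y.C * (a + Y.s)) =
            Y.C * Y.s * (2 * a + Y.s) / (a ^ 2 * (a + Y.s)) := by
          field_simp
          ring
        rw [e3, div_le_div_iff₀ (by positivity) (by positivity)]
        have : 0 ≤ Y.C * Y.s * a ^ 2 * (Y.s : ℝ) := by positivity
        nlinarith
      have h11 : 1 / a ^ 2 * (dd Y x w - dd Y x (Y.ins w q)) ≤ 1 / a ^ 2 * (2 * Y.C) :=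
        mul_le_mul_of_nonneg_left h5 (by positivity)
      have e4 : 2 * Y.C * (1 + (Y.s : ℝ)) / a ^ 2 = 1 / a ^ 2 * (2 * Y.C) +
        2 * Y.C * Y.s / a ^ 2 := by ring
      rw [e4]
      linarith
    refine (sum_le_card_nsmul _ _ _ h4).trans ?_
    rw [nsmul_eq_mul]
    have h5 : ((Y.S w).card : ℝ) ≤ Y.C * (m + 1) := by
      exact_mod_cast Y.S_le m w hw
    refine (mul_le_mul_of_nonneg_right h5 (by positivity)).trans (le_of_eq ?_)
    field_simp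
  have h12 : 0 ≤ 2 * (Y.C ^ 2 * ((1 + Y.s) * Ex Y x N (fun m _ => 1 / ((m : ℝ) + 1)))) := by
    have : 0 ≤ Ex Y x N (fun m _ => 1 / ((m : ℝ) + 1)) :=
      Ex_nonneg hx0 fun m w _ => by positivity
    positivity
  calc _ ≤ x ^ Y.s * (2 * (Y.C ^ 2 * ((1 + Y.s) * Ex Y x N (fun m _ => 1 / ((m : ℝ) + 1))))) :=
        mul_le_mul_of_nonneg_left h3 hp0
    _ ≤ _ := mul_le_of_le_one_left h12 hp1

end Pool.Agent.R131.LS
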