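import Mathlib

/-!
# Integer valued variables without large atoms
-/

set_option autoImplicit false

namespace Pool.Agent.R131.LS

open Finset
open scoped Classical

theorem card_near (t L : ℝ) (hL : 0 < L) : ∃ I : Finset ℕ, (∀ k : ℕ, |(k : ℝ) - t| < L → k ∈ I) ∧
    (I.card : ℝ) ≤ 2 * L + 1 := by
  by_cases h : 0 ≤ t + L
  · refine ⟨Icc ⌈t - L⌉₊ ⌊t + L⌋₊, fun k hk => ?_, ?_⟩
    · rw [abs_lt] at hk
      rw [mem_Icc]
      exact ⟨Nat.ceil_le.2 (by linarith), Nat.le_floor (by linarith)⟩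
    · rw [Nat.card_Icc]
      have h1 : (⌊t + L⌋₊ : ℝ) ≤ t + L := Nat.floor_le h
      have h2 : t - L ≤ (⌈t - L⌉₊ : ℝ) := Nat.le_ceil _
      by_cases h3 : ⌈t - L⌉₊ ≤ ⌊t + L⌋₊ + 1
      · rw [Nat.cast_sub h3]
        push_cast
        linarith
      · rw [Nat.sub_eq_zero_of_le (by omega)]
        push_cast
        linarith
  · refine ⟨∅, fun k hk => ?_, ?_⟩
    · rw [abs_lt] at hk
      have : (0 : ℝ) ≤ k := Nat.cast_nonneg _
      exfalso
      apply h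
      linarith
    · simp only [card_empty, Nat.cast_zero]
      linarith

theorem var_low {ι : Type} (T : Finset ι) (w : ι → ℝ) (hw : ∀ i ∈ T, 0 ≤ w i) (l : ι → ℕ)
    (s : ℝ) (hs : 0 < s) (hs4 : s ≤ 1 / 4)
    (h : ∀ k, ∑ i ∈ T, w i * (if l i = k then 1 else 0) ≤ s * ∑ i ∈ T, w i) (t : ℝ) :
    1 / (128 * s ^ 2) * ∑ i ∈ T, w i ≤ ∑ i ∈ T, w i * ((l i : ℝ) - t) ^ 2 := by
  obtain ⟨L, hL⟩ : ∃ L : ℝ, L = 1 / (8 * s) := ⟨_, rfl⟩
  have hL0 : 0 < L := by rw [hL]; positivity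
  have hW : 0 ≤ ∑ i ∈ T, w i := sum_nonneg hw
  obtain ⟨I, hI, hIc⟩ := card_near t L hL0
  have h1 : ∑ i ∈ T, w i * (if |(l i : ℝ) - t| < L then 1 else 0) ≤ 1 / 2 * ∑ i ∈ T, w i := by
    have h2 : ∑ i ∈ T, w i * (if |(l i : ℝ) - t| < L then 1 else 0) ≤
        ∑ i ∈ T, ∑ k ∈ I, w i * (if l i = k then 1 else 0) := by
      refine sum_le_sum fun i hi => ?_
      rw [← mul_sum]
      refine mul_le_mul_of_nonneg_left ?_ (hw i hi)
      split_ifs with h3
      · have h4 := hI (l i) h3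
        rw [Finset.sum_ite_eq I (l i) (fun _ => (1 : ℝ)), if_pos h4]
      · exact sum_nonneg fun k _ => by split_ifs <;> norm_num
    rw [sum_comm] at h2
    have h3 : ∑ k ∈ I, ∑ i ∈ T, w i * (if l i = k then 1 else 0) ≤
        (I.card : ℝ) * (s * ∑ i ∈ T, w i) := by
      rw [← nsmul_eq_mul]
      exact sum_le_card_nsmul _ _ _ fun k _ => h k
    refine h2.trans (h3.trans ?_)
    have h4 : (I.card : ℝ) * s ≤ 1 / 2 := by
      have h5 : (I.card : ℝ) * s ≤ (2 * L + 1) * s := mul_le_mul_of_nonneg_right hIc hs.le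
      have h6 : (2 * L + 1) * s = 1 / 4 + s := by
        rw [hL]
        field_simp
        ring
      linarith
    have := mul_le_mul_of_nonneg_right h4 hW
    linarith
  have h2 : ∑ i ∈ T, w i = ∑ i ∈ T, w i * (if |(l i : ℝ) - t| < L then 1 else 0) +
      ∑ i ∈ T, w i * (if |(l i : ℝ) - t| < L then 0 else 1) := by
    rw [← sum_add_distrib]
    refine sum_congr rfl fun i _ => ?_
    split_ifs <;> ring
  have h3 : L ^ 2 * ∑ i ∈ T, w i * (if |(l i : ℝ) - t| < L then 0 else 1) ≤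
      ∑ i ∈ T, w i * ((l i : ℝ) - t) ^ 2 := by
    rw [mul_sum]
    refine sum_le_sum fun i hi => ?_
    split_ifs with h4
    · simp only [mul_zero]
      exact mul_nonneg (hw i hi) (sq_nonneg _)
    · have h5 : L ^ 2 ≤ ((l i : ℝ) - t) ^ 2 := by
        rw [← sq_abs ((l i : ℝ) - t)]
        exact pow_le_pow_left₀ hL0.le (not_lt.1 h4) 2
      have := mul_le_mul_of_nonneg_left h5 (hw i hi)
      linarith
  have h4 : L ^ 2 * (1 / 2 * ∑ i ∈ T, w i) ≤
      L ^ 2 * ∑ i ∈ T, w i * (if |(l i : ℝ) - t| < L then 0 else 1) :=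
    mul_le_mul_of_nonneg_left (by linarith) (by positivity)
  have h5 : L ^ 2 * (1 / 2 * ∑ i ∈ T, w i) = 1 / (128 * s ^ 2) * ∑ i ∈ T, w i := by
    rw [hL]
    field_simp
    ring
  linarith

end Pool.Agent.R131.LS
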