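import Pool.Agent.R131.LS.Fin
import Pool.Agent.R131.LS.Var

/-!
# Consequences: atoms and variance of the number of steps
-/

set_option autoImplicit false

namespace Pool.Agent.R131.LS

open Finset TH966.AK
open Pool.Agent.Y981.QB
open Pool.Agent.W832.HR (Nbr Traj xc Z emb lv HD Hd Bd)
open scoped Classical ENNReal

theorem Mr_eq {D : Set P} {p q : P} (h : (Traj D p q).Finite) (F : List P → ℝ) :
    Mr D p q F = (∑ l ∈ h.toFinset, xr ^ (l.length - 1) * F l) /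
      ∑ l ∈ h.toFinset, xr ^ (l.length - 1) := by
  unfold Mr Zr
  rw [finsum_mem_eq_finite_toFinset_sum _ h, finsum_mem_eq_finite_toFinset_sum _ h]

theorem Mr_sub {D : Set P} {p q : P} (h : (Traj D p q).Finite) (F G : List P → ℝ) :
    Mr D p q F - Mr D p q G = Mr D p q (fun l => F l - G l) := by
  rw [Mr_eq h, Mr_eq h, Mr_eq h, ← sub_div, ← Finset.sum_sub_distrib]
  congr 1
  refine Finset.sum_congr rfl fun l _ => ?_
  ring

theorem fin2 (W : Set ℂ) (hW : IsOpen W) (hc : IsConnected W)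
    (a b : ℂ) (hab : a ≠ b) (ε ε' : ℝ) (hε : ε = 1 ∨ ε = -1) (hε' : ε' = 1 ∨ ε' = -1) (r : ℝ)
    (hr : 0 < r) (ha : HD a ε r ⊆ W) (hb : HD b ε' r ⊆ W) (M : ℝ) :
    ∃ K : Set ℂ, K ⊆ W ∧ IsCompact K ∧ ∃ C : ℝ, 1 ≤ C ∧ ∀ δ : ℝ, 0 < δ → C * δ ≤ 1 →
      ∀ (D : Set P) (p q : P), Bd ε p → Bd ε' q →
      C * ‖(δ : ℂ) * emb p - a‖ ≤ 1 → C * ‖(δ : ℂ) * emb q - b‖ ≤ 1 →
      (∀ v : P, (δ : ℂ) * emb v ∈ K → v ∈ D) → Hd δ ε r p ⊆ D → Hd δ ε' r q ⊆ D →
      (∀ v ∈ D, ‖(δ : ℂ) * emb v‖ ≤ M) → Closed D →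
      (Traj D p q).Finite ∧ 0 < Zr D p q ∧ (∀ (η : ℝ) (F : List P → ℝ) (g : ℕ → ℝ), 0 ≤ η →
        (∀ l ∈ Traj D p q, 0 ≤ F l ∧ F l ≤ 1) → Loc D p q η F → (∀ n, 0 ≤ g n ∧ g n ≤ 1) →
        |Mr D p q (fun l => F l * g (l.length - 1)) -
          Mr D p q (fun l => F l * g (l.length - 1 + 2))| ≤ C * (Real.sqrt δ + η)) ∧
      (∀ k : ℕ, Mr D p q (fun l => if l.length - 1 = k then 1 else 0) ≤ C * Real.sqrt δ) ∧
      ∀ t : ℝ, 1 / (C * δ) ≤ Mr D p q (fun l => (((l.length - 1 : ℕ) : ℝ) - t) ^ 2) := by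
  obtain ⟨K, hK, hKc, C, hC, h⟩ := fin W hW hc a b hab ε ε' hε hε' r hr ha hb M
  have hC' : C ≤ 128 * C ^ 2 := by nlinarith
  refine ⟨K, hK, hKc, 128 * C ^ 2, by linarith, ?_⟩
  intro δ hδ hCδ D p q hp hq hpa hqb hKD hpD hqD hDM hcl
  have hmono : ∀ x : ℝ, 0 ≤ x → 128 * C ^ 2 * x ≤ 1 → C * x ≤ 1 := fun x hx h1 =>
    (mul_le_mul_of_nonneg_right hC' hx).trans h1
  obtain ⟨h1, h2, h3⟩ := h δ hδ (hmono δ hδ.le hCδ) D p q hp hq (hmono _ (norm_nonneg _) hpa)
    (hmono _ (norm_nonneg _) hqb) hKD hpD hqD hDM hcl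
  have hs0 : 0 < Real.sqrt δ := Real.sqrt_pos.2 hδ
  -- atoms
  have h4 : ∀ k : ℕ, Mr D p q (fun l => if l.length - 1 = k then 1 else 0) ≤
      C * Real.sqrt δ := by
    intro k
    have h5 := h3 0 (fun _ => 1) (fun n => if k + 2 ≤ n ∧ n % 2 = k % 2 then 1 else 0) le_rfl
      (fun l _ => ⟨zero_le_one, le_rfl⟩) (by
        intro L U U' R _ _ _ _ _ _
        simp) (fun n => by
        split_ifs <;> norm_num)
    rw [Mr_sub h1, add_zero] at h5
    have h6 := (abs_le.1 h5).1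
    have e : (fun l : List P => (1 : ℝ) * (if k + 2 ≤ l.length - 1 ∧
        (l.length - 1) % 2 = k % 2 then (1 : ℝ) else 0) -
        1 * (if k + 2 ≤ l.length - 1 + 2 ∧ (l.length - 1 + 2) % 2 = k % 2 then (1 : ℝ) else 0)) =
        fun l => -(if l.length - 1 = k then (1 : ℝ) else 0) := by
      funext l
      generalize l.length - 1 = n
      by_cases h7 : n = k
      · subst h7
        rw [if_neg (by omega), if_pos (by omega), if_pos rfl]
        norm_num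
      · rw [if_neg h7]
        by_cases h8 : k + 2 ≤ n ∧ n % 2 = k % 2
        · rw [if_pos h8, if_pos (by omega)]
          norm_num
        · rw [if_neg h8, if_neg (by omega)]
          norm_num
    rw [e] at h6
    have e2 : Mr D p q (fun l => -(if l.length - 1 = k then (1 : ℝ) else 0)) =
        -Mr D p q (fun l => if l.length - 1 = k then 1 else 0) := by
      rw [Mr_eq h1, Mr_eq h1, ← neg_div, ← Finset.sum_neg_distrib]
      congr 1
      refine Finset.sum_congr rfl fun l _ => ?_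
      ring
    rw [e2] at h6
    linarith
  refine ⟨h1, h2, ?_, ?_, ?_⟩
  · intro η F g hη hF hL hg
    refine (h3 η F g hη hF hL hg).trans ?_
    exact mul_le_mul_of_nonneg_right hC' (by positivity)
  · intro k
    exact (h4 k).trans (mul_le_mul_of_nonneg_right hC' hs0.le)
  · intro t
    obtain ⟨T, hT⟩ : ∃ T, T = h1.toFinset := ⟨_, rfl⟩
    have hZ : 0 < ∑ l ∈ T, xr ^ (l.length - 1) := by
      have e : Zr D p q = ∑ l ∈ T, xr ^ (l.length - 1) := by
        unfold Zr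
        rw [finsum_mem_eq_finite_toFinset_sum _ h1, hT]
      rw [← e]
      exact h2
    have hsq : Real.sqrt δ ^ 2 = δ := Real.sq_sqrt hδ.le
    have h5 := var_low T (fun l => xr ^ (l.length - 1)) (fun l _ => by
      have := xr_pos
      positivity) (fun l => l.length - 1) (C * Real.sqrt δ) (by positivity) (by
      have h6 : (C * Real.sqrt δ) ^ 2 ≤ (1 / 4) ^ 2 := by
        rw [mul_pow, hsq]
        linarith
      exact (pow_le_pow_iff_left₀ (by positivity) (by norm_num) (by norm_num)).1 h6) (fun k => by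
      have h6 := h4 k
      rw [Mr_eq h1, ← hT, div_le_iff₀ hZ] at h6
      exact h6) t
    rw [Mr_eq h1, ← hT, le_div_iff₀ hZ]
    rw [mul_pow, hsq] at h5
    have e : 1 / (128 * C ^ 2 * δ) = 1 / (128 * (C ^ 2 * δ)) := by ring
    rw [e]
    exact h5

end Pool.Agent.R131.LS
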