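import Pool.Agent.R131.LS.Tr
import Pool.Agent.Y981.QB.Dom

/-!
# The number of steps of the critical walk in a domain
-/

set_option autoImplicit false

namespace Pool.Agent.R131.LS

open Finset TH966.AK
open Pool.Agent.Y981.QB
open Pool.Agent.W832.HR (Nbr Traj xc Z emb lv HD Hd Bd)
open scoped Classical ENNReal

/-- the critical fugacity -/
noncomputable def xr : ℝ := 1 / Real.sqrt (2 + Real.sqrt 2)

theorem sqrt_gt : (459 / 250 : ℝ) < Real.sqrt (2 + Real.sqrt 2) := by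
  have h4 : (1.4142 : ℝ) ≤ Real.sqrt 2 := by
    rw [Real.le_sqrt' (by norm_num)]
    norm_num
  rw [Real.lt_sqrt (by norm_num)]
  linarith [show (459 / 250 : ℝ) ^ 2 < 2 + 1.4142 by norm_num]

theorem xr_pos : 0 < xr := by
  unfold xr
  have := sqrt_gt
  have h : 0 < Real.sqrt (2 + Real.sqrt 2) := by linarith
  positivity

theorem xr_le : xr ≤ 1 := by
  unfold xr
  have := sqrt_gt
  rw [div_le_one (by linarith)]
  linarith

theorem xr_mul : xr * (459 / 250) < 1 := by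
  unfold xr
  have := sqrt_gt
  rw [one_div, inv_mul_eq_div, div_lt_one (by linarith)]
  exact this

/-- the partition function -/
noncomputable def Zr (D : Set P) (p q : P) : ℝ := ∑ᶠ l ∈ Traj D p q, xr ^ (l.length - 1)

/-- the mean value -/
noncomputable def Mr (D : Set P) (p q : P) (F : List P → ℝ) : ℝ :=
  (∑ᶠ l ∈ Traj D p q, xr ^ (l.length - 1) * F l) / Zr D p q

theorem nbr_eq : Nbr = Hex.A := by
  funext x y
  exact propext Pool.Agent.W832.HR.nbr_iff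

theorem traj_eq (D : Set P) (p q : P) : Traj D p q = Tj D p q := by
  unfold Traj Tj
  rw [nbr_eq]

section

variable {D : Set P} {p q : P} (hp : p ∈ D) (F : Finset P) (hF : (F : Set P) = D)

include hp hF

theorem sum_eq (h : List P → ℝ) : ∑ᶠ l ∈ Traj D p q, xr ^ (l.length - 1) * h l =
    Ex (Yp D p q) xr F.card (fun _ w => h (w.map (pi p))) := by
  rw [traj_eq, ← coe_TT hp F hF, finsum_mem_coe_finset]
  exact sum_TT hp F.card xr (fun _ l => h l)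

theorem sum_eq' (h : ℕ → List P → ℝ) :
    ∑ᶠ l ∈ Traj D p q, xr ^ (l.length - 1) * h (l.length - 1) l =
    Ex (Yp D p q) xr F.card (fun m w => h m (w.map (pi p))) := by
  rw [traj_eq, ← coe_TT hp F hF, finsum_mem_coe_finset]
  exact sum_TT hp F.card xr h

theorem Zr_eq : Zr D p q = Ex (Yp D p q) xr F.card (fun _ _ => 1) := by
  have := sum_eq (q := q) hp F hF (fun _ => 1)
  rw [← this]
  unfold Zr
  simp

theorem Z_eq : Z D p q = ENNReal.ofReal (Zr D p q) := by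
  unfold Z Zr
  have h1 : Traj D p q = (TT D p q F.card : Set (List P)) := by
    rw [traj_eq, coe_TT hp F hF]
  rw [h1, finsum_mem_coe_finset, ENNReal.ofReal_sum_of_nonneg (fun l _ => by
    have := xr_pos
    positivity)]
  rw [Finset.tsum_subtype' (TT D p q F.card) (fun l => xc ^ (l.length - 1))]
  refine Finset.sum_congr rfl fun l _ => ?_
  rw [ENNReal.ofReal_pow xr_pos.le]
  rfl

theorem good_Yp : Good (Yp D p q) xr F.card := by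
  have h0 : Dp D p 0 := by
    unfold Dp
    rwa [pi_zero]
  have h1 := good_sysE (ruleD Hex.rule (Dp D p)) (show 1 ≤ 3 by norm_num) (ps p q) xr_pos xr_le
    (F.image (ps p)) (fun n w hw y hy => by
      rw [Kw_D Hex.rule h0] at hw
      have h2 : pi p y ∈ D := hw.2 y hy
      rw [← hF] at h2
      exact mem_image.2 ⟨pi p y, h2, ps_pi p y⟩)
  rw [Finset.card_image_of_injective _ (ps_inj p)] at h1
  exact h1

end

theorem ins_map {D : Set P} {p q : P} (hp : p ∈ D) {m : ℕ} {w : List P} {z : List P × List P}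
    (hw : w ∈ (Yp D p q).K m) (hz : z ∈ (Yp D p q).S w) : ∃ L U U' R : List P,
    U.length = 3 ∧ U'.length = 5 ∧ U.head? = U'.head? ∧ U.getLast? = U'.getLast? ∧
    w.map (pi p) = L ++ U ++ R ∧ ((Yp D p q).ins w z).map (pi p) = L ++ U' ++ R := by
  obtain ⟨U, U'⟩ := z
  have hz' : (U, U') ∈ (ruleD Hex.rule (Dp D p)).S w := hz
  have hw' : w ∈ (Kw (AD Hex.A (Dp D p)) m).filter (fun w => w.getLast? = some (ps p q)) := hw
  rw [Rule.mem_S] at hz'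
  rw [mem_filter, (ruleD Hex.rule (Dp D p)).mem_K] at hw'
  obtain ⟨L, R, h1, h2, -⟩ := Rule.rep_all ((ruleD Hex.rule (Dp D p)).pair _ _ hz'.1)
    hw'.1.2 hz'.2
  obtain ⟨⟨a, b, c, e1, e2, -⟩, -⟩ := hz'.1
  simp only at e1 e2 h1 h2
  refine ⟨L.map (pi p), U.map (pi p), U'.map (pi p), R.map (pi p), ?_, ?_, ?_, ?_, ?_, ?_⟩
  · rw [e1]; rfl
  · rw [e2]; rfl
  · rw [e1, e2]; rfl
  · rw [e1, e2]; rfl
  · rw [h1]; simp
  · have h3 : (Yp D p q).ins w (U, U') = Rule.rep w U U' := rfl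
    rw [h3, h2]; simp

theorem C_eq (D : Set P) (p q : P) : (Yp D p q).C = Hex.rule.CC := rfl

theorem s_eq (D : Set P) (p q : P) : (Yp D p q).s = 2 := rfl

theorem absorb (k : ℕ) {θ : ℝ} (h0 : 0 ≤ θ) (h1 : θ < 1) :
    ∃ B : ℝ, 0 ≤ B ∧ ∀ n : ℕ, (n : ℝ) ^ k * θ ^ n ≤ B := by
  have h2 := tendsto_pow_const_mul_const_pow_of_abs_lt_one k (show |θ| < 1 by
    rwa [abs_of_nonneg h0])
  obtain ⟨B, hB⟩ := h2.bddAbove_range
  refine ⟨max B 0, le_max_right _ _, fun n => (hB ⟨n, rfl⟩).trans (le_max_left _ _)⟩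

/-- `F` changes by at most `η` when a piece of two steps is replaced by a piece of four steps -/
def Loc (D : Set P) (p q : P) (η : ℝ) (F : List P → ℝ) : Prop :=
  ∀ L U U' R : List P, U.length = 3 → U'.length = 5 → U.head? = U'.head? →
    U.getLast? = U'.getLast? → L ++ U ++ R ∈ Traj D p q → L ++ U' ++ R ∈ Traj D p q →
    |F (L ++ U' ++ R) - F (L ++ U ++ R)| ≤ η

/-- closed domains -/
def Closed (D : Set P) : Prop :=
  ∀ v, v ∉ D → ∃ u u', u ≠ u' ∧ Nbr v u ∧ Nbr v u' ∧ u ∉ D ∧ u' ∉ D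

theorem sq_num {δ ζ : ℝ} (h0 : 0 < ζ) (h : δ = ζ ^ 2) (hd : δ ≤ 1 / 100) : ζ ≤ 1 ∧ δ ≤ ζ := by
  have h1 : ζ ≤ 1 := by
    by_contra hcon
    have : 1 < ζ := not_le.1 hcon
    nlinarith
  refine ⟨h1, ?_⟩
  rw [h]
  nlinarith

theorem bad_num (k n1 : ℕ) {C0 B c1 δ ζ Z θ : ℝ} (hC0 : 0 ≤ C0) (hB0 : 0 ≤ B) (hc1 : 0 < c1)
    (hδ : 0 < δ) (hδζ : δ ≤ ζ) (hZ : 0 < Z) (hZlow : δ ^ k ≤ Z) (hθ0 : 0 ≤ θ)
    (hθ2 : 0 < 1 - θ) (hn : c1 / δ ≤ n1) (hB : (n1 : ℝ) ^ (k + 1) * θ ^ n1 ≤ B) :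
    C0 * θ ^ n1 / (1 - θ) ≤ C0 * B / (1 - θ) / c1 ^ (k + 1) * ζ * Z := by
  have hcd : 0 < c1 / δ := by positivity
  have h2 : (c1 / δ) ^ (k + 1) ≤ (n1 : ℝ) ^ (k + 1) := pow_le_pow_left₀ hcd.le hn _
  have h3 : (c1 / δ) ^ (k + 1) * θ ^ n1 ≤ B :=
    (mul_le_mul_of_nonneg_right h2 (by positivity)).trans hB
  have h4 : θ ^ n1 ≤ B / c1 ^ (k + 1) * (δ ^ k * δ) := by
    rw [div_pow, div_mul_eq_mul_div, div_le_iff₀ (by positivity)] at h3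
    rw [div_mul_eq_mul_div, le_div_iff₀ (by positivity), ← pow_succ, mul_comm (θ ^ n1)]
    exact h3
  have h5 : δ ^ k * δ ≤ Z * ζ := mul_le_mul hZlow hδζ hδ.le hZ.le
  have h6 : θ ^ n1 ≤ B / c1 ^ (k + 1) * (Z * ζ) :=
    h4.trans (mul_le_mul_of_nonneg_left h5 (by positivity))
  calc C0 * θ ^ n1 / (1 - θ) = C0 / (1 - θ) * θ ^ n1 := by ring
    _ ≤ C0 / (1 - θ) * (B / c1 ^ (k + 1) * (Z * ζ)) :=
        mul_le_mul_of_nonneg_left h6 (by positivity)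
    _ = _ := by ring

theorem fin_num {G A1 A2 A3 A4 ζ η Z E X : ℝ} (hG : G = 2 * A1 + A2 + A3 + A4) (h1 : 0 ≤ A1)
    (h2 : 0 ≤ A2) (h3 : 0 ≤ A3) (h4 : 0 ≤ A4) (hζ : 0 ≤ ζ) (hη : 0 ≤ η) (hZ : 0 ≤ Z)
    (hE : E ≤ A1 * ζ * Z) (hX : X ≤ A2 * ζ) :
    2 * E + (X + A3 * η + A4 * ζ) * Z ≤ G * (ζ + η) * Z := by
  have k1 := mul_nonneg h1 hη
  have k2 := mul_nonneg h2 hη
  have k3 := mul_nonneg h3 hζ
  have k4 := mul_nonneg h4 hη
  have h5 : (X + A3 * η + A4 * ζ) * Z ≤ (A2 * ζ + A3 * η + A4 * ζ) * Z :=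
    mul_le_mul_of_nonneg_right (by linarith) hZ
  have h6 : (2 * A1 * ζ + A2 * ζ + A3 * η + A4 * ζ) * Z ≤ G * (ζ + η) * Z := by
    refine mul_le_mul_of_nonneg_right ?_ hZ
    rw [hG]
    have e : (2 * A1 + A2 + A3 + A4) * (ζ + η) = (2 * A1 * ζ + A2 * ζ + A3 * η + A4 * ζ) +
      (2 * (A1 * η) + A2 * η + A3 * ζ + A4 * η) := by ring
    rw [e]
    linarith
  have e : (2 * A1 * ζ + A2 * ζ + A3 * η + A4 * ζ) * Z =
    2 * (A1 * ζ * Z) + (A2 * ζ + A3 * η + A4 * ζ) * Z := by ring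
  linarith

theorem num_b2 {CC κ c1 δ ζ : ℝ} (hδ : 0 < δ) (hc1 : 0 < c1) (hδζ : δ ≤ ζ)
    (g2 : 0 ≤ CC * (CC + κ * 2) / κ ^ 2 / c1) :
    CC * (CC + κ * ((2 : ℕ) : ℝ)) / κ ^ 2 / (c1 / δ) ≤ CC * (CC + κ * 2) / κ ^ 2 / c1 * ζ := by
  have e : CC * (CC + κ * ((2 : ℕ) : ℝ)) / κ ^ 2 / (c1 / δ) =
      CC * (CC + κ * 2) / κ ^ 2 / c1 * δ := by
    push_cast
    rw [div_div_eq_mul_div]
    ring
  rw [e]
  exact mul_le_mul_of_nonneg_left hδζ g2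

theorem num_b3 {CC κ c1 δ ζ : ℝ} (hζ0 : 0 < ζ) (hζ2 : δ = ζ ^ 2) (hc1 : 0 < c1) :
    1 / κ * (ζ / 2 + 1 / (2 * ζ) * (2 * CC ^ 2 * (1 + ((2 : ℕ) : ℝ))) / (c1 / δ)) =
      1 / κ * (1 / 2 + 1 / 2 * (2 * CC ^ 2 * (1 + 2)) / c1) * ζ := by
  rw [hζ2]
  push_cast
  rw [mul_assoc (1 / κ)]
  congr 1
  field_simp

theorem fin (W : Set ℂ) (hW : IsOpen W) (hc : IsConnected W)
    (a b : ℂ) (hab : a ≠ b) (ε ε' : ℝ) (hε : ε = 1 ∨ ε = -1) (hε' : ε' = 1 ∨ ε' = -1) (r : ℝ)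
    (hr : 0 < r) (ha : HD a ε r ⊆ W) (hb : HD b ε' r ⊆ W) (M : ℝ) :
    ∃ K : Set ℂ, K ⊆ W ∧ IsCompact K ∧ ∃ C : ℝ, 1 ≤ C ∧ ∀ δ : ℝ, 0 < δ → C * δ ≤ 1 →
      ∀ (D : Set P) (p q : P), Bd ε p → Bd ε' q →
      C * ‖(δ : ℂ) * emb p - a‖ ≤ 1 → C * ‖(δ : ℂ) * emb q - b‖ ≤ 1 →
      (∀ v : P, (δ : ℂ) * emb v ∈ K → v ∈ D) → Hd δ ε r p ⊆ D → Hd δ ε' r q ⊆ D →
      (∀ v ∈ D, ‖(δ : ℂ) * emb v‖ ≤ M) → Closed D →
      (Traj D p q).Finite ∧ 0 < Zr D p q ∧ ∀ (η : ℝ) (F : List P → ℝ) (g : ℕ → ℝ), 0 ≤ η →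
        (∀ l ∈ Traj D p q, 0 ≤ F l ∧ F l ≤ 1) → Loc D p q η F → (∀ n, 0 ≤ g n ∧ g n ≤ 1) →
        |Mr D p q (fun l => F l * g (l.length - 1)) -
          Mr D p q (fun l => F l * g (l.length - 1 + 2))| ≤ C * (Real.sqrt δ + η) := by
  obtain ⟨K, hK, hKc, C₁, hC₁, h⟩ := Pool.Agent.Y981.Sup.low W hW hc a b hab ε ε' hε hε' r hr ha hb
  obtain ⟨C₃, hC₃, hcard⟩ := domain_card M
  obtain ⟨C0', hC0'⟩ := Hex.poor
  obtain ⟨C0, hC0⟩ : ∃ C0 : ℝ, C0 = |C0'| := ⟨_, rfl⟩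
  have hC00 : 0 ≤ C0 := by rw [hC0]; exact abs_nonneg _
  have hab' : 0 < ‖a - b‖ := norm_pos_iff.2 (sub_ne_zero.2 hab)
  obtain ⟨CC, hCC⟩ : ∃ c : ℝ, c = (Hex.rule.CC : ℝ) := ⟨_, rfl⟩
  have hCC0 : 0 ≤ CC := by rw [hCC]; exact Nat.cast_nonneg _
  obtain ⟨θ, hθ⟩ : ∃ θ : ℝ, θ = xr * (459 / 250) := ⟨_, rfl⟩
  have hθ0 : 0 ≤ θ := by rw [hθ]; have := xr_pos; positivity
  have hθ1 : θ < 1 := by rw [hθ]; exact xr_mul
  obtain ⟨B, hB0, hB⟩ := absorb (C₁ + 1) hθ0 hθ1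
  obtain ⟨c1, hc1⟩ : ∃ c1 : ℝ, c1 = ‖a - b‖ / 2 := ⟨_, rfl⟩
  have hc1pos : 0 < c1 := by rw [hc1]; positivity
  obtain ⟨κ, hκ⟩ : ∃ κ : ℝ, κ = 1 / (2 * ((10000 : ℕ) : ℝ)) := ⟨_, rfl⟩
  have hκ0 : 0 < κ := by rw [hκ]; norm_num
  obtain ⟨G, hG⟩ : ∃ G : ℝ, G = 2 * (C0 * B / (1 - θ) / c1 ^ (C₁ + 1)) +
    CC * (CC + κ * 2) / κ ^ 2 / c1 + CC / κ +
    1 / κ * (1 / 2 + 1 / 2 * (2 * CC ^ 2 * (1 + 2)) / c1) := ⟨_, rfl⟩
  have hθ2 : 0 < 1 - θ := by linarith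
  have g1 : 0 ≤ C0 * B / (1 - θ) / c1 ^ (C₁ + 1) := by positivity
  have g2 : 0 ≤ CC * (CC + κ * 2) / κ ^ 2 / c1 := by positivity
  have g3 : 0 ≤ CC / κ := by positivity
  have g4 : 0 ≤ 1 / κ * (1 / 2 + 1 / 2 * (2 * CC ^ 2 * (1 + 2)) / c1) := by positivity
  have hG0 : 0 ≤ G := by rw [hG]; linarith
  have hdiv : 0 < 32 / ‖a - b‖ := by positivity
  obtain ⟨C, hCdef⟩ : ∃ C : ℝ, C = C₁ + 100 + 32 / ‖a - b‖ + G := ⟨_, rfl⟩
  have hC1r : (9 : ℝ) ≤ C₁ := by exact_mod_cast hC₁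
  have hC100 : 100 ≤ C := by rw [hCdef]; linarith
  have hCC1 : (C₁ : ℝ) ≤ C := by rw [hCdef]; linarith
  have hCab : 32 / ‖a - b‖ ≤ C := by rw [hCdef]; linarith
  have hCG : G ≤ C := by rw [hCdef]; linarith
  refine ⟨K, hK, hKc, C, by linarith, ?_⟩
  intro δ hδ hCδ D p q hp hq hpa hqb hKD hpD hqD hDM hcl
  have hδ1 : δ ≤ 1 / 100 := by
    by_contra hcon
    have : 1 / 100 < δ := not_le.1 hcon
    nlinarith
  have hmono : ∀ x : ℝ, 0 ≤ x → C * x ≤ 1 → C₁ * x ≤ 1 := fun x hx h1 =>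
    (mul_le_mul_of_nonneg_right hCC1 hx).trans h1
  obtain ⟨hpq, hlow⟩ := h δ hδ (hmono δ hδ.le hCδ) D p q hp hq (hmono _ (norm_nonneg _) hpa)
    (hmono _ (norm_nonneg _) hqb) hKD hpD hqD
  obtain ⟨D', hD', -⟩ := hcard δ hδ (by linarith) D hDM
  have hpm : p ∈ D := hpD (by
    show ‖(δ : ℂ) * emb p - δ * emb p‖ < r ∧ 0 ≤ ε * (lv (emb p) - lv (emb p))
    simp [hr])
  have hfin : (Traj D p q).Finite := by
    rw [traj_eq, ← coe_TT hpm D' hD']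
    exact Finset.finite_toSet _
  have hZlow : δ ^ C₁ ≤ Zr D p q := by
    have h1 := hlow D (Set.Subset.refl D)
    rw [Z_eq hpm D' hD'] at h1
    refine (ENNReal.ofReal_le_ofReal_iff ?_).1 h1
    unfold Zr
    exact finsum_nonneg fun l => finsum_nonneg fun _ => by
      have := xr_pos
      positivity
  have hZ : 0 < Zr D p q := lt_of_lt_of_le (by positivity) hZlow
  refine ⟨hfin, hZ, ?_⟩
  intro η F g hη hF hFη hg
  have hgood := good_Yp (q := q) hpm D' hD'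
  -- the walks are long
  have hdL : c1 / δ ≤ dst p q := by
    rw [hc1]
    exact far hδ (by
      have := mul_le_mul_of_nonneg_right hCab hab'.le
      rw [div_mul_cancel₀ _ hab'.ne'] at this
      linarith) (by linarith) hpa hqb
  have hlong : ∀ m, ∀ w ∈ (Yp D p q).K m, c1 / δ ≤ m := by
    intro m w hw
    obtain ⟨h1, h2⟩ := (mem_Yp hpm).1 hw
    refine hdL.trans (sw_far (l := w.map (pi p)) (n := m) ?_ h2.2.1).1
    refine ⟨by rw [List.length_map, h1], h2.1, h2.2.2.2.1, h2.2.2.1⟩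
  obtain ⟨n1, hn1⟩ : ∃ n1 : ℕ, n1 = ⌈c1 / δ⌉₊ := ⟨_, rfl⟩
  have hcd : 0 < c1 / δ := by positivity
  have hn1c : c1 / δ ≤ n1 := by rw [hn1]; exact Nat.le_ceil _
  have hn1p : 0 < (n1 : ℝ) := lt_of_lt_of_le hcd hn1c
  have hn1' : 1 ≤ n1 := by exact_mod_cast hn1p
  have hKn : ∀ m, m < n1 → (Yp D p q).K m = ∅ := by
    intro m hm
    rw [Finset.eq_empty_iff_forall_notMem]
    intro w hw
    have h1 := hlong m w hw
    have h2 : n1 ≤ m := by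
      rw [hn1]
      exact Nat.ceil_le.2 h1
    omega
  have h0 : Dp D p 0 := by
    unfold Dp
    rwa [pi_zero]
  have hclD : Cl D := by
    intro v hv
    obtain ⟨u, u', h1, h2, h3, h4⟩ := hcl v hv
    rw [nbr_eq] at h2 h3
    exact ⟨u, u', h1, h2, h3, h4⟩
  have hbad : Ex (Yp D p q) xr D'.card (bd (Yp D p q) κ) ≤ C0 * θ ^ n1 / (1 - θ) := by
    rw [hκ, hθ]
    refine bad_le Hex.rule (ps p q) xr_pos D'.card h0
      (fun U U' hT hx => closed hclD p U U' hT hx) (by norm_num) (by norm_num) xr_mul hC00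
      (fun n => (hC0' n).trans ?_) n1 hn1' hKn
    rw [hC0]
    exact mul_le_mul_of_nonneg_right (le_abs_self _) (by positivity)
  have hm := main hgood (κ := κ) (η := η) (t := Real.sqrt δ) (L := c1 / δ) hκ0 hη
    (Real.sqrt_pos.2 hδ) hcd (fun m w hw => (hlong m w hw).trans (by linarith))
    (fun w => F (w.map (pi p))) g (fun m w hw => by
      refine hF _ ?_
      rw [traj_eq]
      exact ((mem_Yp hpm).1 hw).2) hg (fun m w hw z hz => by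
      obtain ⟨L, U, U', R, u1, u2, u3, u4, u5, u6⟩ := ins_map hpm hw hz
      rw [u5, u6]
      refine hFη L U U' R u1 u2 u3 u4 ?_ ?_
      · rw [← u5, traj_eq]
        exact ((mem_Yp hpm).1 hw).2
      · rw [← u6, traj_eq]
        exact ((mem_Yp hpm).1 ((Yp D p q).ins_K m w z hw hz)).2)
  rw [← Zr_eq hpm D' hD', s_eq, C_eq, ← hCC] at hm
  have e1 : Mr D p q (fun l => F l * g (l.length - 1)) =
      Ex (Yp D p q) xr D'.card (fun m w => F (w.map (pi p)) * g m) / Zr D p q := by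
    unfold Mr
    rw [sum_eq' hpm D' hD' (fun m l => F l * g m)]
  have e2 : Mr D p q (fun l => F l * g (l.length - 1 + 2)) =
      Ex (Yp D p q) xr D'.card (fun m w => F (w.map (pi p)) * g (m + 2)) / Zr D p q := by
    unfold Mr
    rw [sum_eq' hpm D' hD' (fun m l => F l * g (m + 2))]
  rw [e1, e2, ← sub_div, abs_div, abs_of_pos hZ, div_le_iff₀ hZ]
  refine hm.trans ?_
  obtain ⟨ζ, hζ⟩ : ∃ ζ : ℝ, ζ = Real.sqrt δ := ⟨_, rfl⟩
  have hζ0 : 0 < ζ := by rw [hζ]; exact Real.sqrt_pos.2 hδ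
  have hζ2 : δ = ζ ^ 2 := by rw [hζ, Real.sq_sqrt hδ.le]
  obtain ⟨hζ1, hδζ⟩ := sq_num hζ0 hζ2 (by linarith)
  rw [← hζ, num_b3 hζ0 hζ2 hc1pos, show CC * η / κ = CC / κ * η by ring]
  have b1 := bad_num C₁ n1 (ζ := ζ) hC00 hB0 hc1pos hδ hδζ hZ hZlow hθ0 hθ2 hn1c (hB n1)
  refine (fin_num hG g1 g2 g3 g4 hζ0.le hη hZ.le (hbad.trans b1)
    (num_b2 hδ hc1pos hδζ g2)).trans ?_
  exact mul_le_mul_of_nonneg_right (mul_le_mul_of_nonneg_right hCG (by positivity)) hZ.le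

end Pool.Agent.R131.LS
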