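import Pool.Agent.R131.LS.Main
import Pool.Agent.TH966.AK.HexPoor

/-!
# Walks in a domain between two points as a system of moves
-/

set_option autoImplicit false

namespace Pool.Agent.R131.LS

open Finset TH966.AK
open scoped Classical

/-- steps inside a domain -/
def AD (A : P → P → Prop) (D : P → Prop) (p q : P) : Prop := A p q ∧ D p ∧ D q

variable {A : P → P → Prop} {D : P → Prop}

theorem chain_AD {l : List P} (h : l.IsChain A) (hD : ∀ x ∈ l, D x) : l.IsChain (AD A D) := by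
  induction l with
  | nil => exact List.IsChain.nil
  | cons x l ih =>
    cases l with
    | nil => exact List.IsChain.singleton _
    | cons y l =>
      rw [List.isChain_cons_cons] at h ⊢
      exact ⟨⟨h.1, hD x (by simp), hD y (by simp)⟩, ih h.2 fun z hz => hD z (by simp [hz])⟩

theorem AD_chain {l : List P} (h : l.IsChain (AD A D)) : l.IsChain A :=
  h.imp fun _ _ h => h.1

theorem mem_of_chain {l : List P} (h : l.IsChain (AD A D)) (h0 : ∀ x, l.head? = some x → D x) :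
    ∀ x ∈ l, D x := by
  induction l with
  | nil => simp
  | cons x l ih =>
    intro z hz
    rcases List.mem_cons.1 hz with rfl | hz
    · exact h0 _ rfl
    · cases l with
      | nil => simp at hz
      | cons y l =>
        rw [List.isChain_cons_cons] at h
        refine ih h.2 (fun u hu => ?_) z hz
        simp only [List.head?_cons, Option.some.injEq] at hu
        subst hu
        exact h.1.2.2

/-- the rule in a domain -/
def ruleD (Z : Rule A) (D : P → Prop) : Rule (AD A D) where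
  T U U' := Z.T U U' ∧ (∀ x ∈ U, D x) ∧ ∀ x ∈ U', D x
  ρ := Z.ρ
  k := Z.k
  s := Z.s
  step := fun p q h => Z.step p q h.1
  pair := by
    rintro U U' ⟨h, h1, h2⟩
    obtain ⟨h3, h4, h5, h6, h7⟩ := Z.pair U U' h
    exact ⟨h3, h4, h5, chain_AD h6 h1, chain_AD h7 h2⟩
  len := fun U U' h => Z.len U U' h.1
  loc := fun U U' h => Z.loc U U' h.1

theorem Kw_D (Z : Rule A) (h0 : D 0) {n : ℕ} {w : List P} : w ∈ Kw (AD A D) n ↔
    w ∈ Kw A n ∧ ∀ x ∈ w, D x := by
  rw [(ruleD Z D).mem_K, Z.mem_K]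
  constructor
  · rintro ⟨h1, h2, h3, h4⟩
    refine ⟨⟨h1, h2, h3, AD_chain h4⟩, mem_of_chain h4 fun x hx => ?_⟩
    rw [h2] at hx
    cases hx
    exact h0
  · rintro ⟨⟨h1, h2, h3, h4⟩, h5⟩
    exact ⟨h1, h2, h3, chain_AD h4 h5⟩

theorem poorD (Z : Rule A) (h0 : D 0)
    (hcl : ∀ U U', Z.T U U' → (∀ x ∈ U', D x) → ∀ x ∈ U, D x) {M0 : ℕ} {ρ C0 : ℝ}
    (h4 : ∀ n : ℕ,
      (((Kw A n).filter (fun w => M0 * (Z.B w).card ≤ n)).card : ℝ) ≤ C0 * ρ ^ n) (n : ℕ) :
      (((Kw (AD A D) n).filter (fun w => M0 * ((ruleD Z D).B w).card ≤ n)).card : ℝ) ≤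
        C0 * ρ ^ n := by
  refine le_trans ?_ (h4 n)
  rw [Nat.cast_le]
  refine Finset.card_le_card fun w hw => ?_
  rw [Finset.mem_filter, Kw_D Z h0] at hw
  obtain ⟨⟨h5, h6⟩, h7⟩ := hw
  rw [Finset.mem_filter]
  refine ⟨h5, le_trans ?_ h7⟩
  refine Nat.mul_le_mul_left _ (Finset.card_le_card fun q hq => ?_)
  rw [Z.mem_B] at hq
  rw [(ruleD Z D).mem_B]
  have h8 : ∀ x ∈ q.2, D x := fun x hx => h6 x (hq.2.1.subset hx)
  exact ⟨⟨hq.1, hcl _ _ hq.1 h8, h8⟩, hq.2⟩

theorem rep_last {U U' w : List P} (h : Pair A U U') (hw : Walk A w) (hf : Free U U' w) :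
    (Rule.rep w U U').getLast? = w.getLast? := by
  obtain ⟨L, R, h1, h2, -⟩ := Rule.rep_all h hw hf
  obtain ⟨⟨p, r, X, X', h3, h4, -⟩, -⟩ := h
  rw [h2, h1, h3, h4]
  rcases R.eq_nil_or_concat with rfl | ⟨R', z, rfl⟩
  · have e1 : L ++ p :: (X' ++ [r]) ++ [] = (L ++ p :: X') ++ [r] := by simp
    have e2 : L ++ p :: (X ++ [r]) ++ [] = (L ++ p :: X) ++ [r] := by simp
    rw [e1, e2, List.getLast?_concat, List.getLast?_concat]
  · have e1 : L ++ p :: (X' ++ [r]) ++ (R'.concat z) = (L ++ p :: (X' ++ [r]) ++ R') ++ [z] := by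
      simp
    have e2 : L ++ p :: (X ++ [r]) ++ (R'.concat z) = (L ++ p :: (X ++ [r]) ++ R') ++ [z] := by
      simp
    rw [e1, e2, List.getLast?_concat, List.getLast?_concat]

/-- the walks from `0` to `e` -/
noncomputable def sysE (Z : Rule A) (e : P) : Sys (List P) (List P × List P) where
  K n := (Kw A n).filter (fun w => w.getLast? = some e)
  S := Z.S
  B := Z.B
  ins w q := Rule.rep w q.1 q.2
  rem w q := Rule.rep w q.2 q.1
  s := Z.s
  C := Z.CC
  n0 := 0
  hC := Z.sys.hC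
  ins_K := by
    rintro n w ⟨U, U'⟩ hw hq
    rw [mem_filter] at hw ⊢
    have hq' := hq
    rw [Z.mem_S] at hq'
    refine ⟨Z.sys.ins_K n w (U, U') hw.1 hq, ?_⟩
    rw [← hw.2]
    exact rep_last (Z.pair _ _ hq'.1) (Z.mem_K.1 hw.1).2 hq'.2
  ins_B := fun n w q hw hq => Z.sys.ins_B n w q (mem_filter.1 hw).1 hq
  rem_ins := fun n w q hw hq => Z.sys.rem_ins n w q (mem_filter.1 hw).1 hq
  rem_K := by
    rintro n w ⟨U, U'⟩ h0 hw hq
    rw [mem_filter] at hw ⊢
    have hq' := hq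
    rw [Z.mem_B] at hq'
    refine ⟨Z.sys.rem_K n w (U, U') h0 hw.1 hq, ?_⟩
    rw [← hw.2]
    exact rep_last (Z.pair _ _ hq'.1).symm (Z.mem_K.1 hw.1).2 hq'.2
  rem_S := fun n w q h0 hw hq => Z.sys.rem_S n w q h0 (mem_filter.1 hw).1 hq
  ins_rem := fun n w q h0 hw hq => Z.sys.ins_rem n w q h0 (mem_filter.1 hw).1 hq
  chS1 := fun n w q hw hq => Z.sys.chS1 n w q (mem_filter.1 hw).1 hq
  chS2 := fun n w q hw hq => Z.sys.chS2 n w q (mem_filter.1 hw).1 hq
  chB1 := fun n w q hw hq => Z.sys.chB1 n w q (mem_filter.1 hw).1 hq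
  chB2 := fun n w q hw hq => Z.sys.chB2 n w q (mem_filter.1 hw).1 hq
  S_le := fun n w hw => Z.sys.S_le n w (mem_filter.1 hw).1

theorem B_le (Z : Rule A) {n : ℕ} {w : List P} (hw : w ∈ Kw A n) :
    (Z.B w).card ≤ Z.CC * (n + 1) := by
  rw [Z.mem_K] at hw
  have h1 : (Z.B w).card ≤ (w.toFinset.biUnion Z.cand).card := Finset.card_filter_le _ _
  have h2 := Finset.card_biUnion_le_card_mul w.toFinset Z.cand Z.c0 fun x _ => Z.card_cand x
  have h3 : w.toFinset.card ≤ n + 1 := (List.toFinset_card_le w).trans hw.1.le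
  have h4 : w.toFinset.card * Z.c0 ≤ (n + 1) * Z.c0 := Nat.mul_le_mul_right _ h3
  have h5 : Z.c0 ≤ Z.CC := by unfold Rule.CC; omega
  have h6 : (n + 1) * Z.c0 ≤ Z.CC * (n + 1) := by
    rw [mul_comm]; exact Nat.mul_le_mul_right _ h5
  omega

/-- the hypotheses hold for walks in a finite set -/
theorem good_sysE (Z : Rule A) (hk : 1 ≤ Z.k) (e : P) {x : ℝ} (hx0 : 0 < x) (hx1 : x ≤ 1)
    (F : Finset P) (hF : ∀ n, ∀ w ∈ Kw A n, ∀ y ∈ w, y ∈ F) : Good (sysE Z e) x F.card where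
  x0 := hx0
  x1 := hx1
  n0 := rfl
  big := by
    intro m hm
    rw [Finset.eq_empty_iff_forall_notMem]
    intro w hw
    have hw' : w ∈ Kw A m := (mem_filter.1 hw).1
    have h1 := hF m w hw'
    rw [Z.mem_K] at hw'
    have h2 : w.toFinset ⊆ F := fun y hy => h1 y (List.mem_toFinset.1 hy)
    have h3 := Finset.card_le_card h2
    rw [List.toFinset_card_of_nodup hw'.2.2.1, hw'.1] at h3
    omega
  small := by
    intro m hm w hw
    have hw' : w ∈ Kw A m := (mem_filter.1 hw).1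
    rw [Z.mem_K] at hw'
    rw [Finset.eq_empty_iff_forall_notMem]
    intro q hq
    have hq' : q ∈ Z.B w := hq
    rw [Z.mem_B] at hq'
    have h1 := hq'.2.1.length_le
    have h2 := (Z.len _ _ hq'.1).2
    have hm' : m < Z.s := hm
    omega
  B_le := fun m w hw => B_le Z (mem_filter.1 hw).1

/-- walks with few moves have small weight -/
theorem bad_le (Z : Rule A) (e : P) {x : ℝ} (hx0 : 0 < x) (N : ℕ) (h0 : D 0)
    (hcl : ∀ U U', Z.T U U' → (∀ x ∈ U', D x) → ∀ x ∈ U, D x) {M0 : ℕ} (hM0 : 1 ≤ M0) {ρ C0 : ℝ}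
    (hρ : 0 ≤ ρ) (hρx : x * ρ < 1) (hC0 : 0 ≤ C0)
    (hp : ∀ n : ℕ,
      (((Kw A n).filter (fun w => M0 * (Z.B w).card ≤ n)).card : ℝ) ≤ C0 * ρ ^ n)
    (n1 : ℕ) (hn1 : 1 ≤ n1) (hK : ∀ m, m < n1 → (sysE (ruleD Z D) e).K m = ∅) :
    Ex (sysE (ruleD Z D) e) x N (bd (sysE (ruleD Z D) e) (1 / (2 * M0))) ≤
      C0 * (x * ρ) ^ n1 / (1 - x * ρ) := by
  have hM : (1 : ℝ) ≤ M0 := by exact_mod_cast hM0
  have h1 : ∀ m, x ^ m * ∑ w ∈ (sysE (ruleD Z D) e).K m,
      bd (sysE (ruleD Z D) e) (1 / (2 * M0)) m w ≤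
      if n1 ≤ m then C0 * (x * ρ) ^ m else 0 := by
    intro m
    split_ifs with h
    · have h2 : ∑ w ∈ (sysE (ruleD Z D) e).K m, bd (sysE (ruleD Z D) e) (1 / (2 * M0)) m w ≤
          (((Kw (AD A D) m).filter (fun w => M0 * ((ruleD Z D).B w).card ≤ m)).card : ℝ) := by
        unfold bd
        rw [← Finset.sum_filter, Finset.sum_const, nsmul_one, Nat.cast_le]
        refine Finset.card_le_card fun w hw => ?_
        rw [mem_filter] at hw ⊢
        obtain ⟨h3, h4⟩ := hw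
        have h3' : w ∈ (Kw (AD A D) m).filter (fun w => w.getLast? = some e) := h3
        rw [mem_filter] at h3'
        refine ⟨h3'.1, ?_⟩
        have h4' : (((ruleD Z D).B w).card : ℝ) < 1 / (2 * M0) * ((m : ℝ) + 1) := h4
        have hm1 : (1 : ℝ) ≤ m := by
          have : 1 ≤ m := by omega
          exact_mod_cast this
        have h5 : (M0 : ℝ) * ((ruleD Z D).B w).card ≤ m := by
          have h6 : (M0 : ℝ) * ((ruleD Z D).B w).card ≤ M0 * (1 / (2 * M0) * ((m : ℝ) + 1)) :=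
            mul_le_mul_of_nonneg_left h4'.le (by positivity)
          have h7 : (M0 : ℝ) * (1 / (2 * M0) * ((m : ℝ) + 1)) = (m + 1) / 2 := by
            field_simp
          rw [h7] at h6
          linarith
        exact_mod_cast h5
      have h3 := (h2.trans (poorD Z h0 hcl hp m))
      calc _ ≤ x ^ m * (C0 * ρ ^ m) := mul_le_mul_of_nonneg_left h3 (by positivity)
        _ = _ := by rw [mul_pow]; ring
    · rw [hK m (by omega)]
      simp
  unfold Ex
  refine (Finset.sum_le_sum fun m _ => h1 m).trans ?_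
  rw [← Finset.sum_filter, ← Finset.mul_sum]
  have h2 : (range N).filter (fun m => n1 ≤ m) = Ico n1 N := by
    ext m
    simp only [mem_filter, mem_range, mem_Ico]
    omega
  have hθ : 0 ≤ x * ρ := by positivity
  have hθ1 : 0 < 1 - x * ρ := by linarith
  have h3 : ∑ m ∈ Ico n1 N, (x * ρ) ^ m ≤ (x * ρ) ^ n1 / (1 - x * ρ) := by
    rw [Finset.sum_Ico_eq_sum_range]
    have h4 : ∑ k ∈ range (N - n1), (x * ρ) ^ (n1 + k) =
        (x * ρ) ^ n1 * ∑ k ∈ range (N - n1), (x * ρ) ^ k := by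
      rw [Finset.mul_sum]
      exact Finset.sum_congr rfl fun k _ => pow_add _ _ _
    rw [h4, div_eq_mul_inv]
    refine mul_le_mul_of_nonneg_left ?_ (by positivity)
    have h5 := geom_sum_mul_neg (x * ρ) (N - n1)
    rw [← one_div, le_div_iff₀ hθ1, h5]
    have : 0 ≤ (x * ρ) ^ (N - n1) := by positivity
    linarith
  rw [h2, mul_div_assoc]
  exact mul_le_mul_of_nonneg_left h3 hC0

end Pool.Agent.R131.LS
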