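import Pool.Agent.R131.LS.Hex

/-!
# Transfer to trajectories between two points
-/

set_option autoImplicit false

namespace Pool.Agent.R131.LS

open Finset TH966.AK
open scoped Classical

/-- the sign -/
def sg (p : P) : ℤ := if (p.1 + p.2) % 2 = 0 then 1 else -1

/-- the automorphism which takes `p` to the origin -/
def ps (p v : P) : P := (v.1 - p.1, sg p * (v.2 - p.2))

/-- its inverse -/
def pi (p u : P) : P := (u.1 + p.1, p.2 + sg p * u.2)

theorem sg_cases (p : P) : ((p.1 + p.2) % 2 = 0 ∧ sg p = 1) ∨ ((p.1 + p.2) % 2 = 1 ∧ sg p = -1) := by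
  unfold sg
  split_ifs with h
  · exact Or.inl ⟨h, rfl⟩
  · exact Or.inr ⟨by omega, rfl⟩

theorem pi_ps (p v : P) : pi p (ps p v) = v := by
  unfold pi ps
  rcases sg_cases p with ⟨-, h⟩ | ⟨-, h⟩ <;> rw [h] <;> refine Prod.ext ?_ ?_ <;> simp only <;> ring

theorem ps_pi (p v : P) : ps p (pi p v) = v := by
  unfold pi ps
  rcases sg_cases p with ⟨-, h⟩ | ⟨-, h⟩ <;> rw [h] <;> refine Prod.ext ?_ ?_ <;> simp only <;> ring

theorem pi_inj (p : P) : Function.Injective (pi p) :=
  Function.LeftInverse.injective (g := ps p) (ps_pi p)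

theorem ps_inj (p : P) : Function.Injective (ps p) :=
  Function.LeftInverse.injective (g := pi p) (pi_ps p)

theorem ps_self (p : P) : ps p p = 0 := by
  unfold ps
  simp

theorem pi_zero (p : P) : pi p 0 = p := by
  rw [← ps_self p, pi_ps]

theorem A_pi {p u v : P} (h : Hex.A u v) : Hex.A (pi p u) (pi p v) := by
  rw [Hex.A_iff] at *
  unfold pi
  rcases sg_cases p with ⟨h1, h2⟩ | ⟨h1, h2⟩ <;> rw [h2] <;> simp only <;> omega

theorem A_ps {p u v : P} (h : Hex.A u v) : Hex.A (ps p u) (ps p v) := by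
  rw [Hex.A_iff] at *
  unfold ps
  rcases sg_cases p with ⟨h1, h2⟩ | ⟨h1, h2⟩ <;> rw [h2] <;> simp only <;> omega

/-- trajectories -/
def Tj (D : Set P) (a b : P) : Set (List P) :=
  {l | l.head? = some a ∧ l.getLast? = some b ∧ l.Nodup ∧ l.IsChain Hex.A ∧ ∀ p ∈ l, p ∈ D}

/-- the domain seen from `p` -/
def Dp (D : Set P) (p : P) (u : P) : Prop := pi p u ∈ D

/-- the system -/
noncomputable def Yp (D : Set P) (p q : P) : Sys (List P) (List P × List P) :=
  sysE (ruleD Hex.rule (Dp D p)) (ps p q)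

theorem mem_Yp {D : Set P} {p q : P} (hp : p ∈ D) {m : ℕ} {w : List P} :
    w ∈ (Yp D p q).K m ↔ w.length = m + 1 ∧ w.map (pi p) ∈ Tj D p q := by
  have h0 : Dp D p 0 := by
    unfold Dp
    rwa [pi_zero]
  have h1 : w ∈ (Yp D p q).K m ↔ w ∈ (Kw (AD Hex.A (Dp D p)) m).filter
      (fun w => w.getLast? = some (ps p q)) := Iff.rfl
  rw [h1, mem_filter, Kw_D Hex.rule h0, Hex.rule.mem_K]
  unfold Tj Walk
  constructor
  · rintro ⟨⟨⟨a1, a2, a3, a4⟩, a5⟩, a6⟩
    refine ⟨a1, ?_, ?_, ?_, ?_, ?_⟩
    · rw [List.head?_map, a2, Option.map_some, pi_zero]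
    · rw [List.getLast?_map, a6, Option.map_some, pi_ps]
    · exact a3.map (pi_inj p)
    · rw [List.isChain_map]
      exact a4.imp fun _ _ h => A_pi h
    · intro v hv
      obtain ⟨u, hu, rfl⟩ := List.mem_map.1 hv
      exact a5 u hu
  · rintro ⟨a1, a2, a3, a4, a5, a6⟩
    rw [List.head?_map] at a2
    rw [List.getLast?_map] at a3
    refine ⟨⟨⟨a1, ?_, ?_, ?_⟩, ?_⟩, ?_⟩
    · obtain ⟨u, hu, h2⟩ := Option.map_eq_some_iff.1 a2
      rw [hu, ← ps_pi p u, h2, ps_self]
    · exact List.Nodup.of_map _ a4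
    · rw [List.isChain_map] at a5
      refine a5.imp fun u v h => ?_
      have := A_ps (p := p) h
      rwa [ps_pi, ps_pi] at this
    · intro u hu
      exact a6 _ (List.mem_map.2 ⟨u, hu, rfl⟩)
    · obtain ⟨u, hu, h2⟩ := Option.map_eq_some_iff.1 a3
      rw [hu, ← ps_pi p u, h2]

/-- all trajectories -/
noncomputable def TT (D : Set P) (p q : P) (N : ℕ) : Finset (List P) :=
  (range N).biUnion (fun m => ((Yp D p q).K m).image (List.map (pi p)))

theorem coe_TT {D : Set P} {p q : P} (hp : p ∈ D) (F : Finset P) (hF : (F : Set P) = D) :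
    (TT D p q F.card : Set (List P)) = Tj D p q := by
  ext l
  unfold TT
  rw [mem_coe, mem_biUnion]
  constructor
  · rintro ⟨m, -, h⟩
    rw [mem_image] at h
    obtain ⟨w, hw, rfl⟩ := h
    exact ((mem_Yp hp).1 hw).2
  · intro h
    have e : (l.map (ps p)).map (pi p) = l := by
      rw [List.map_map]
      have : pi p ∘ ps p = id := by
        funext v
        exact pi_ps p v
      rw [this, List.map_id]
    have h1 : 1 ≤ l.length := by
      obtain ⟨a1, -⟩ := h
      cases l with
      | nil => simp at a1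
      | cons x l => simp
    have h2 : l.length ≤ F.card := by
      obtain ⟨-, -, a3, -, a5⟩ := h
      rw [← List.toFinset_card_of_nodup a3]
      refine Finset.card_le_card fun v hv => ?_
      have := a5 v (List.mem_toFinset.1 hv)
      rw [← hF] at this
      exact this
    refine ⟨l.length - 1, mem_range.2 (by omega), mem_image.2 ⟨l.map (ps p), ?_, e⟩⟩
    rw [mem_Yp hp, e]
    refine ⟨?_, h⟩
    rw [List.length_map]
    omega

/-- sums over the trajectories -/
theorem sum_TT {D : Set P} {p q : P} (hp : p ∈ D) (N : ℕ) (x : ℝ) (h : ℕ → List P → ℝ) :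
    ∑ l ∈ TT D p q N, x ^ (l.length - 1) * h (l.length - 1) l =
      Ex (Yp D p q) x N (fun m w => h m (w.map (pi p))) := by
  unfold TT Ex
  rw [sum_biUnion]
  · refine sum_congr rfl fun m _ => ?_
    rw [sum_image (fun _ _ _ _ hh => List.map_injective_iff.2 (pi_inj p) hh), mul_sum]
    refine sum_congr rfl fun w hw => ?_
    have h1 := ((mem_Yp hp).1 hw).1
    rw [List.length_map, h1, Nat.add_sub_cancel]
  · intro m _ m' _ hm
    simp only [Function.onFun]
    rw [Finset.disjoint_left]
    intro l hl hl'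
    rw [mem_image] at hl hl'
    obtain ⟨w, hw, rfl⟩ := hl
    obtain ⟨w', hw', e⟩ := hl'
    have e1 := ((mem_Yp hp).1 hw).1
    have e2 := ((mem_Yp hp).1 hw').1
    have e3 := congrArg List.length e
    rw [List.length_map, List.length_map] at e3
    omega

/-- closed domains: a point outside has two neighbours outside -/
def Cl (D : Set P) : Prop := ∀ v, v ∉ D → ∃ u u', u ≠ u' ∧ Hex.A v u ∧ Hex.A v u' ∧ u ∉ D ∧ u' ∉ D

theorem closed {D : Set P} (hD : Cl D) (p : P) (U U' : List P) (hT : Hex.rule.T U U')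
    (h : ∀ x ∈ U', Dp D p x) : ∀ x ∈ U, Dp D p x := by
  obtain ⟨a, b, c, rfl, rfl, h1, h2, h3⟩ := hT
  have ha : Dp D p a := h a (by simp)
  have hc : Dp D p c := h c (by simp)
  intro x hx
  simp only [List.mem_cons, List.not_mem_nil, or_false] at hx
  rcases hx with rfl | rfl | rfl
  · exact ha
  · by_contra hcon
    obtain ⟨u, u', huu, hu, hu', hu1, hu2⟩ := hD _ hcon
    have k1 : Hex.A (pi p x) (pi p a) := Hex.A_symm (A_pi h1)
    have k2 : Hex.A (pi p x) (pi p c) := A_pi h2
    have n1 : pi p a ≠ pi p c := fun hh => h3 (pi_inj p hh)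
    have hsub : ({pi p a, pi p c, u, u'} : Finset P) ⊆ Hex.nb (pi p x) := by
      intro z hz
      simp only [Finset.mem_insert, Finset.mem_singleton] at hz
      rw [Hex.mem_nb]
      rcases hz with rfl | rfl | rfl | rfl
      · exact k1
      · exact k2
      · exact hu
      · exact hu'
    have n2 : pi p a ≠ u := by
      rintro rfl
      exact hu1 ha
    have n3 : pi p a ≠ u' := by
      rintro rfl
      exact hu2 ha
    have n4 : pi p c ≠ u := by
      rintro rfl
      exact hu1 hc
    have n5 : pi p c ≠ u' := by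
      rintro rfl
      exact hu2 hc
    have hcard : ({pi p a, pi p c, u, u'} : Finset P).card = 4 := by
      rw [Finset.card_insert_of_notMem, Finset.card_insert_of_notMem,
        Finset.card_insert_of_notMem, Finset.card_singleton]
      · simpa using huu
      · simp only [Finset.mem_insert, Finset.mem_singleton, not_or]
        exact ⟨n4, n5⟩
      · simp only [Finset.mem_insert, Finset.mem_singleton, not_or]
        exact ⟨n1, n2, n3⟩
    have := Finset.card_le_card hsub
    have := Hex.card_nb (pi p x)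
    omega
  · exact hc

end Pool.Agent.R131.LS
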